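import Pool.Agent.Helper12_UNF.Stmts2

set_option autoImplicit false

/-!
# Squad UNF: MOR. The Artin action on a free product of groups of order two is faithful

Peak reduction for the sum of the half lengths of the images of the generators.
-/

namespace Unf.H4

open Art

/-! ## A confluence lemma -/

section newman

variable {α : Type} (N : α → ℕ) (R : α → α → Prop)

/-- A decreasing step. -/
def Dn (a b : α) : Prop := R a b ∧ N b < N a

/-- No decreasing step. -/
def Tm (a : α) : Prop := ∀ b, R a b → ¬ N b < N a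

/-- Joined below `m`. -/
def Jn (m : ℕ) : α → α → Prop := Relation.EqvGen (fun x y => R x y ∧ N x < m ∧ N y < m)

/-- `t` is a terminal element reached from `a`. -/
def Rs (a t : α) : Prop := Relation.ReflTransGen (Dn N R) a t ∧ Tm N R t

theorem ex_term (a : α) : ∃ t, Rs N R a t := by
  induction h : N a using Nat.strong_induction_on generalizing a with
  | _ m ih =>
    by_cases ht : Tm N R a
    · exact ⟨a, .refl, ht⟩
    · unfold Tm at ht
      push Not at ht
      obtain ⟨b, hb, hlt⟩ := ht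
      obtain ⟨t, h1, h2⟩ := ih (N b) (h ▸ hlt) b rfl
      exact ⟨t, .head ⟨hb, hlt⟩ h1, h2⟩

variable {N} {R}

theorem uniq (hsym : ∀ a b, R a b → R b a) (hne : ∀ a b, R a b → N a ≠ N b)
    (hpk : ∀ a b c, R a b → R a c → N b < N a → N c < N a → Jn N R (N a) b c) :
    ∀ m a, N a < m → ∀ t t', Rs N R a t → Rs N R a t' → t = t' := by
  intro m
  induction m with
  | zero => intro a ha; exact absurd ha (Nat.not_lt_zero _)
  | succ m ih =>
    intro a ha t t' h h'
    have hj : ∀ x y, Jn N R m x y → x = y ∨ (N x < m ∧ N y < m ∧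
        ∀ t t', Rs N R x t → Rs N R y t' → t = t') := by
      intro x y hxy
      induction hxy with
      | rel x y hxy =>
        obtain ⟨h1, h2, h3⟩ := hxy
        refine Or.inr ⟨h2, h3, fun t t' ht ht' => ?_⟩
        rcases lt_or_gt_of_ne (hne x y h1) with hlt | hlt
        · exact ih y h3 t t' ⟨.head ⟨hsym _ _ h1, hlt⟩ ht.1, ht.2⟩ ht'
        · exact ih x h2 t t' ht ⟨.head ⟨h1, hlt⟩ ht'.1, ht'.2⟩
      | refl x => exact Or.inl rfl
      | symm x y _ hi =>
        rcases hi with rfl | ⟨h1, h2, h3⟩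
        · exact Or.inl rfl
        · exact Or.inr ⟨h2, h1, fun t t' ht ht' => (h3 t' t ht' ht).symm⟩
      | trans x y z _ _ hi hi' =>
        rcases hi with rfl | ⟨h1, h2, h3⟩
        · exact hi'
        · rcases hi' with rfl | ⟨h4, h5, h6⟩
          · exact Or.inr ⟨h1, h2, h3⟩
          · refine Or.inr ⟨h1, h5, fun t t' ht ht' => ?_⟩
            obtain ⟨r, hr⟩ := ex_term N R y
            exact (h3 t r ht hr).trans (h6 r t' hr ht')
    by_cases hlt : N a < m
    · exact ih a hlt t t' h h'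
    have ham : N a = m := by omega
    rcases h.1.cases_head with rfl | ⟨b, hb, hbt⟩
    · rcases h'.1.cases_head with rfl | ⟨c, hc, _⟩
      · rfl
      · exact absurd hc.2 (h.2 c hc.1)
    · rcases h'.1.cases_head with rfl | ⟨c, hc, hct⟩
      · exact absurd hb.2 (h'.2 b hb.1)
      · have := hpk a b c hb.1 hc.1 hb.2 hc.2
        rw [ham] at this
        rcases hj b c this with rfl | ⟨_, _, h3⟩
        · exact ih b (ham ▸ hb.2) t t' ⟨hbt, h.2⟩ ⟨hct, h'.2⟩
        · exact h3 t t' ⟨hbt, h.2⟩ ⟨hct, h'.2⟩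

theorem newman (hsym : ∀ a b, R a b → R b a) (hne : ∀ a b, R a b → N a ≠ N b)
    (hpk : ∀ a b c, R a b → R a c → N b < N a → N c < N a → Jn N R (N a) b c) {a b : α}
    (hab : Relation.EqvGen R a b) (ha : Tm N R a) (hb : Tm N R b) : a = b := by
  have key : ∀ x y, Relation.EqvGen R x y → ∀ t t', Rs N R x t → Rs N R y t' → t = t' := by
    intro x y hxy
    induction hxy with
    | rel x y h1 =>
      intro t t' ht ht'
      rcases lt_or_gt_of_ne (hne x y h1) with hlt | hlt
      · exact uniq hsym hne hpk _ y (Nat.lt_succ_self _) t t'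
          ⟨.head ⟨hsym _ _ h1, hlt⟩ ht.1, ht.2⟩ ht'
      · exact uniq hsym hne hpk _ x (Nat.lt_succ_self _) t t' ht
          ⟨.head ⟨h1, hlt⟩ ht'.1, ht'.2⟩
    | refl x => exact uniq hsym hne hpk _ x (Nat.lt_succ_self _)
    | symm x y _ hi => exact fun t t' ht ht' => (hi t' t ht' ht).symm
    | trans x y z _ _ hi hi' =>
      intro t t' ht ht'
      obtain ⟨r, hr⟩ := ex_term N R y
      exact (hi t r ht hr).trans (hi' r t' hr ht')
  exact key a b hab a b ⟨.refl, ha⟩ ⟨.refl, hb⟩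

end newman

/-! ## The action -/

theorem sum_two {n : ℕ} (f f' : Fin (n + 1) → ℕ) (i j : Fin (n + 1)) (hij : i ≠ j)
    (h : ∀ l, l ≠ i → l ≠ j → f' l = f l) :
    (∑ l, f' l) + (f i + f j) = (∑ l, f l) + (f' i + f' j) := by
  have hs : ∀ g : Fin (n + 1) → ℕ, ∑ l, g l = g i + (g j + ∑ l ∈ (Finset.univ.erase i).erase j, g l) := by
    intro g
    rw [← Finset.add_sum_erase _ _ (Finset.mem_univ i),
      ← Finset.add_sum_erase _ _ (Finset.mem_erase.2 ⟨hij.symm, Finset.mem_univ j⟩)]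
  have hr : ∑ l ∈ (Finset.univ.erase i).erase j, f' l = ∑ l ∈ (Finset.univ.erase i).erase j, f l := by
    apply Finset.sum_congr rfl
    intro l hl
    rw [Finset.mem_erase, Finset.mem_erase] at hl
    exact h l hl.2.1 hl.1
  rw [hs f, hs f', hr]
  omega

theorem ox_sq {k : ℕ} (i : Fin k) : ox i * ox i = 1 := (Om k).toCoxeterSystem.simple_mul_simple_self i

section act

variable {n : ℕ} {Ψ : Gp (CoxeterMatrix.A n) →* MulAut (O (n + 1))}

/-- The total half length. -/
noncomputable def Nh (Ψ : Gp (CoxeterMatrix.A n) →* MulAut (O (n + 1)))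
    (a : Gp (CoxeterMatrix.A n)) : ℕ := ∑ j, hl (Ψ a (ox j))

/-- The generators and their inverses. -/
def gb (p : Fin n) (ε : Bool) : Gp (CoxeterMatrix.A n) := if ε then gen _ p else (gen _ p)⁻¹

/-- One step. -/
def Rel (a b : Gp (CoxeterMatrix.A n)) : Prop := ∃ p ε, b = a * gb p ε

theorem gb_not (p : Fin n) (ε : Bool) : gb p (!ε) = (gb p ε)⁻¹ := by
  cases ε <;> simp [gb]

theorem rel_symm (a b : Gp (CoxeterMatrix.A n)) (h : Rel a b) : Rel b a := by
  obtain ⟨p, ε, rfl⟩ := h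
  refine ⟨p, !ε, ?_⟩
  rw [gb_not]
  group

/-- The new values at the two places. -/
def v1 {G : Type} [Group G] (ε : Bool) (A B : G) : G := if ε then A * B * A else B
def v2 {G : Type} [Group G] (ε : Bool) (A B : G) : G := if ε then A else B * A * B

theorem cs_ne (p : Fin n) : p.castSucc ≠ p.succ := Fin.castSucc_lt_succ.ne

theorem act_inv (h : IsArt n Ψ) (p : Fin n) :
    Ψ (gen _ p)⁻¹ (ox p.castSucc) = ox p.succ ∧
    Ψ (gen _ p)⁻¹ (ox p.succ) = ox p.succ * ox p.castSucc * ox p.succ ∧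
    ∀ j, j ≠ p.castSucc → j ≠ p.succ → Ψ (gen _ p)⁻¹ (ox j) = ox j := by
  obtain ⟨h1, h2, h3⟩ := h p
  have hinv : ∀ x y, Ψ (gen _ p) x = y → Ψ (gen _ p)⁻¹ y = x := by
    intro x y hxy
    rw [map_inv, ← hxy]
    exact MulAut.inv_apply_self _ _ _
  refine ⟨hinv _ _ h2, hinv _ _ ?_, fun j hj hj' => hinv _ _ (h3 j hj hj')⟩
  rw [map_mul, map_mul, h1, h2]
  simp only [mul_assoc]
  rw [ox_sq, mul_one, ← mul_assoc, ox_sq, one_mul]

theorem act1 (h : IsArt n Ψ) (a : Gp (CoxeterMatrix.A n)) (p : Fin n) (ε : Bool) :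
    Ψ (a * gb p ε) (ox p.castSucc) = v1 ε (Ψ a (ox p.castSucc)) (Ψ a (ox p.succ)) := by
  rw [map_mul, MulAut.mul_apply]
  cases ε
  · simp only [gb, v1, if_false, Bool.false_eq_true]
    rw [(act_inv h p).1]
  · simp only [gb, v1, if_true]
    rw [(h p).1, map_mul, map_mul]

theorem act2 (h : IsArt n Ψ) (a : Gp (CoxeterMatrix.A n)) (p : Fin n) (ε : Bool) :
    Ψ (a * gb p ε) (ox p.succ) = v2 ε (Ψ a (ox p.castSucc)) (Ψ a (ox p.succ)) := by
  rw [map_mul, MulAut.mul_apply]
  cases ε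
  · simp only [gb, v2, if_false, Bool.false_eq_true]
    rw [(act_inv h p).2.1, map_mul, map_mul]
  · simp only [gb, v2, if_true]
    rw [(h p).2.1]

theorem act3 (h : IsArt n Ψ) (a : Gp (CoxeterMatrix.A n)) (p : Fin n) (ε : Bool)
    (j : Fin (n + 1)) (hj : j ≠ p.castSucc) (hj' : j ≠ p.succ) :
    Ψ (a * gb p ε) (ox j) = Ψ a (ox j) := by
  rw [map_mul, MulAut.mul_apply]
  cases ε
  · simp only [gb, if_false, Bool.false_eq_true]
    rw [(act_inv h p).2.2 j hj hj']
  · simp only [gb, if_true]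
    rw [(h p).2.2 j hj hj']

theorem Nh_step (h : IsArt n Ψ) (a : Gp (CoxeterMatrix.A n)) (p : Fin n) (ε : Bool) :
    Nh Ψ (a * gb p ε) + (hl (Ψ a (ox p.castSucc)) + hl (Ψ a (ox p.succ))) =
      Nh Ψ a + (hl (v1 ε (Ψ a (ox p.castSucc)) (Ψ a (ox p.succ))) +
        hl (v2 ε (Ψ a (ox p.castSucc)) (Ψ a (ox p.succ)))) := by
  have := sum_two (fun j => hl (Ψ a (ox j))) (fun j => hl (Ψ (a * gb p ε) (ox j)))
    p.castSucc p.succ (cs_ne p) (fun l h1 h2 => by
      show hl (Ψ (a * gb p ε) (ox l)) = hl (Ψ a (ox l))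
      rw [act3 h a p ε l h1 h2])
  simp only [act1 h, act2 h] at this
  exact this

/-- Comparability in the direction which makes the move decreasing. -/
def Cd (ε : Bool) (A B : O (n + 1)) : Prop := if ε then TL A B else TL B A

theorem ox_inj (hH : HlnStmt) {k : ℕ} {i j : Fin k} (h : ox i = ox j) : i = j := by
  refine ((hH k).1 (ox i) [] i [] j ⟨List.isChain_singleton _, ?_⟩
    ⟨List.isChain_singleton _, ?_⟩).2
  · simp [wp]
  · simp [wp, h]

theorem wp_surj {k : ℕ} (g : O k) : ∃ l, wp l = g := by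
  obtain ⟨l, hl⟩ := (Om k).toCoxeterSystem.wordProd_surjective g
  refine ⟨l, ?_⟩
  rw [← hl]
  rfl

/-- Conjugates of generators. -/
def Cj {k : ℕ} (A : O k) : Prop := ∃ (g : O k) (i : Fin k), A = g * ox i * g⁻¹

theorem Cj.refl {k : ℕ} (hH : HlnStmt) {A : O k} (h : Cj A) : Refl A := by
  obtain ⟨g, i, rfl⟩ := h
  obtain ⟨w, rfl⟩ := wp_surj g
  exact ((hH k).2.2.1 w i).1

theorem Cj.sq {k : ℕ} {A : O k} (h : Cj A) : A * A = 1 := by
  obtain ⟨g, i, rfl⟩ := h
  have : g * ox i * g⁻¹ * (g * ox i * g⁻¹) = g * (ox i * ox i) * g⁻¹ := by group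
  rw [this, ox_sq]
  group

theorem Cj.conj {k : ℕ} {A B : O k} (h : Cj A) (h' : Cj B) : Cj (A * B * A) := by
  have hs := h.sq
  obtain ⟨g, i, rfl⟩ := h'
  refine ⟨A * g, i, ?_⟩
  have : A⁻¹ = A := inv_eq_of_mul_eq_one_right hs
  rw [mul_inv_rev, this]
  group

theorem ind_right (p : Gp (CoxeterMatrix.A n) → Prop) (h1 : p 1)
    (hs : ∀ a q ε, p a → p (a * gb q ε)) (a : Gp (CoxeterMatrix.A n)) : p a := by
  have ha : a ∈ Subgroup.closure (Set.range (gen (CoxeterMatrix.A n))) := by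
    rw [closure_gen]; exact Subgroup.mem_top _
  induction ha using Subgroup.closure_induction_right with
  | one => exact h1
  | mul_right x _ y hy ih =>
    obtain ⟨q, rfl⟩ := hy
    exact hs x q true ih
  | mul_inv_cancel x _ y hy ih =>
    obtain ⟨q, rfl⟩ := hy
    exact hs x q false ih

theorem cj_act (h : IsArt n Ψ) (a : Gp (CoxeterMatrix.A n)) : ∀ j, Cj (Ψ a (ox j)) := by
  refine ind_right (fun a => ∀ j, Cj (Ψ a (ox j))) ?_ ?_ a
  · intro j
    exact ⟨1, j, by simp⟩
  · intro a q ε ih j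
    by_cases h1 : j = q.castSucc
    · subst h1
      rw [act1 h]
      unfold v1
      split_ifs
      · exact (ih _).conj (ih _)
      · exact ih _
    · by_cases h2 : j = q.succ
      · subst h2
        rw [act2 h]
        unfold v2
        split_ifs
        · exact ih _
        · exact (ih _).conj (ih _)
      · rw [act3 h a q ε j h1 h2]
        exact ih j

theorem act_ne (hH : HlnStmt) (a : Gp (CoxeterMatrix.A n)) {i j : Fin (n + 1)} (hij : i ≠ j) :
    Ψ a (ox i) ≠ Ψ a (ox j) := by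
  intro h
  exact hij (ox_inj hH ((Ψ a).injective h))

theorem v_lt (hH : HlnStmt) {ε : Bool} {A B : O (n + 1)} (h : Cd ε A B) :
    hl (v1 ε A B) + hl (v2 ε A B) < hl A + hl B := by
  cases ε
  · have h' : TL B A := h
    have := ((hH (n + 1)).2.2.2.1 B A h').1
    show hl B + hl (B * A * B) < hl A + hl B
    omega
  · have h' : TL A B := h
    have := ((hH (n + 1)).2.2.2.1 A B h').1
    show hl (A * B * A) + hl A < hl A + hl B
    omega

theorem v_gt (hH : HlnStmt) {ε : Bool} {A B : O (n + 1)} (hA : Refl A) (hB : Refl B) (hne : A ≠ B)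
    (h : ¬ Cd ε A B) : hl A + hl B < hl (v1 ε A B) + hl (v2 ε A B) := by
  cases ε
  · have h' : ¬ TL B A := h
    have := (hH (n + 1)).2.2.2.2.1 B A hB hA hne.symm h'
    show hl A + hl B < hl B + hl (B * A * B)
    omega
  · have h' : ¬ TL A B := h
    have := (hH (n + 1)).2.2.2.2.1 A B hA hB hne h'
    show hl A + hl B < hl (A * B * A) + hl A
    omega

theorem Nh_lt (hH : HlnStmt) (h : IsArt n Ψ) (a : Gp (CoxeterMatrix.A n)) (p : Fin n) (ε : Bool)
    (hc : Cd ε (Ψ a (ox p.castSucc)) (Ψ a (ox p.succ))) : Nh Ψ (a * gb p ε) < Nh Ψ a := by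
  have h1 := Nh_step h a p ε
  have h2 := v_lt hH hc
  omega

theorem Nh_gt (hH : HlnStmt) (h : IsArt n Ψ) (a : Gp (CoxeterMatrix.A n)) (p : Fin n) (ε : Bool)
    (hc : ¬ Cd ε (Ψ a (ox p.castSucc)) (Ψ a (ox p.succ))) : Nh Ψ a < Nh Ψ (a * gb p ε) := by
  have h1 := Nh_step h a p ε
  have h2 := v_gt hH ((cj_act h a _).refl hH) ((cj_act h a _).refl hH)
    (act_ne hH a (cs_ne p)) hc
  omega

theorem Nh_iff (hH : HlnStmt) (h : IsArt n Ψ) (a : Gp (CoxeterMatrix.A n)) (p : Fin n) (ε : Bool) :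
    Nh Ψ (a * gb p ε) < Nh Ψ a ↔ Cd ε (Ψ a (ox p.castSucc)) (Ψ a (ox p.succ)) := by
  constructor
  · intro h1
    by_contra hc
    exact absurd (Nh_gt hH h a p ε hc) (by omega)
  · exact Nh_lt hH h a p ε

theorem Nh_ne (hH : HlnStmt) (h : IsArt n Ψ) (a b : Gp (CoxeterMatrix.A n)) (hab : Rel a b) :
    Nh Ψ a ≠ Nh Ψ b := by
  obtain ⟨p, ε, rfl⟩ := hab
  by_cases hc : Cd ε (Ψ a (ox p.castSucc)) (Ψ a (ox p.succ))
  · exact (Nh_lt hH h a p ε hc).ne'
  · exact (Nh_gt hH h a p ε hc).ne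

/-- Adjacent positions. -/
structure T3 (Ψ : Gp (CoxeterMatrix.A n) →* MulAut (O (n + 1))) (a b : Gp (CoxeterMatrix.A n))
    (p q : Fin n) (X Y Z : O (n + 1)) : Prop where
  x : Ψ b (ox p.castSucc) = X
  y : Ψ b (ox p.succ) = Y
  z : Ψ b (ox q.succ) = Z
  s : Nh Ψ b + (hl (Ψ a (ox p.castSucc)) + hl (Ψ a (ox p.succ)) + hl (Ψ a (ox q.succ))) =
    Nh Ψ a + (hl X + hl Y + hl Z)

theorem T3.rfl' (a : Gp (CoxeterMatrix.A n)) (p q : Fin n) :
    T3 Ψ a a p q (Ψ a (ox p.castSucc)) (Ψ a (ox p.succ)) (Ψ a (ox q.succ)) := ⟨rfl, rfl, rfl, rfl⟩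

theorem T3.mul1 (h : IsArt n Ψ) {a b : Gp (CoxeterMatrix.A n)} {p q : Fin n} {X Y Z : O (n + 1)}
    (hpq : p.1 + 1 = q.1) (hT : T3 Ψ a b p q X Y Z) (ε : Bool) :
    T3 Ψ a (b * gb p ε) p q (v1 ε X Y) (v2 ε X Y) Z := by
  obtain ⟨hx, hy, hz, hs⟩ := hT
  have h1 : q.succ ≠ p.castSucc := by
    intro h; have := congrArg Fin.val h; simp at this; omega
  have h2 : q.succ ≠ p.succ := by
    intro h; have := congrArg Fin.val h; simp at this; omega
  refine ⟨?_, ?_, ?_, ?_⟩
  · rw [act1 h, hx, hy]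
  · rw [act2 h, hx, hy]
  · rw [act3 h b p ε _ h1 h2, hz]
  · have := Nh_step h b p ε
    rw [hx, hy] at this
    omega

theorem T3.mul2 (h : IsArt n Ψ) {a b : Gp (CoxeterMatrix.A n)} {p q : Fin n} {X Y Z : O (n + 1)}
    (hpq : p.1 + 1 = q.1) (hT : T3 Ψ a b p q X Y Z) (ε : Bool) :
    T3 Ψ a (b * gb q ε) p q X (v1 ε Y Z) (v2 ε Y Z) := by
  obtain ⟨hx, hy, hz, hs⟩ := hT
  have hq : q.castSucc = p.succ := by
    apply Fin.ext; simp; omega
  have h1 : p.castSucc ≠ q.castSucc := by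
    intro h; have := congrArg Fin.val h; simp at this; omega
  have h2 : p.castSucc ≠ q.succ := by
    intro h; have := congrArg Fin.val h; simp at this; omega
  have a1 := act1 h b q ε
  have a2 := act2 h b q ε
  have := Nh_step h b q ε
  rw [hq, hy, hz] at a1 a2 this
  refine ⟨?_, a1, a2, ?_⟩
  · rw [act3 h b q ε _ h1 h2, hx]
  · omega

theorem braid {p q : Fin n} (hpq : p.1 + 1 = q.1) :
    gen (CoxeterMatrix.A n) p * gen _ q * gen _ p = gen _ q * gen _ p * gen _ q := by
  have hM : (CoxeterMatrix.A n).M p q = 3 := by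
    have hne : p ≠ q := by intro h; rw [h] at hpq; omega
    show (if p = q then 1 else (if (q : ℕ) + 1 = p ∨ (p : ℕ) + 1 = q then 3 else 2)) = 3
    rw [if_neg hne, if_pos (Or.inr hpq)]
  have := relHolds (CoxeterMatrix.A n) p q (by rw [hM]; norm_num)
  rw [hM] at this
  simp only [alt_succ, alt_zero, mul_one] at this
  rw [mul_assoc, mul_assoc]
  exact this

theorem far {p q : Fin n} (h1 : p ≠ q) (h2 : p.1 + 1 ≠ q.1) (h3 : q.1 + 1 ≠ p.1) :
    gen (CoxeterMatrix.A n) p * gen _ q = gen _ q * gen _ p := by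
  have hM : (CoxeterMatrix.A n).M p q = 2 := by
    show (if p = q then 1 else (if (q : ℕ) + 1 = p ∨ (p : ℕ) + 1 = q then 3 else 2)) = 2
    rw [if_neg h1, if_neg (by push Not; exact ⟨h3, h2⟩)]
  have := relHolds (CoxeterMatrix.A n) p q (by rw [hM]; norm_num)
  rw [hM] at this
  simpa only [alt_succ, alt_zero, mul_one] using this

theorem far_gb {p q : Fin n} (h1 : p ≠ q) (h2 : p.1 + 1 ≠ q.1) (h3 : q.1 + 1 ≠ p.1) (ε δ : Bool) :
    gb p ε * gb q δ = gb q δ * gb p ε := by
  have hc : Commute (gen (CoxeterMatrix.A n) p) (gen _ q) := far h1 h2 h3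
  cases ε <;> cases δ <;> simp only [gb, if_true, if_false, Bool.false_eq_true]
  · exact hc.inv_inv.eq
  · exact hc.inv_left.eq
  · exact hc.inv_right.eq
  · exact hc.eq

theorem jst {m : ℕ} {x y : Gp (CoxeterMatrix.A n)} (p : Fin n) (ε : Bool) (hy : y = x * gb p ε)
    (h1 : Nh Ψ x < m) (h2 : Nh Ψ y < m) : Jn (Nh Ψ) Rel m x y :=
  Relation.EqvGen.rel _ _ ⟨⟨p, ε, hy⟩, h1, h2⟩

theorem peak_adj (hH : HlnStmt) (hC : Cf4Stmt) (h : IsArt n Ψ) (a : Gp (CoxeterMatrix.A n))
    (p q : Fin n) (hpq : p.1 + 1 = q.1) (ε δ : Bool) (h1 : Nh Ψ (a * gb p ε) < Nh Ψ a)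
    (h2 : Nh Ψ (a * gb q δ) < Nh Ψ a) :
    Jn (Nh Ψ) Rel (Nh Ψ a) (a * gb p ε) (a * gb q δ) := by
  have hq : q.castSucc = p.succ := by
    apply Fin.ext; simp; omega
  have hb := braid hpq
  have c1 := (Nh_iff hH h a p ε).1 h1
  have c2 := (Nh_iff hH h a q δ).1 h2
  rw [hq] at c2
  obtain ⟨-, -, -, H4, -, H6, H7⟩ := hH (n + 1)
  have hAC : Ψ a (ox p.castSucc) ≠ Ψ a (ox q.succ) := by
    apply act_ne hH
    intro h; have := congrArg Fin.val h; simp at this; omega
  have hX := hC n Ψ h a p.castSucc p.succ q.succ (by simp) (by simp; omega)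
  have T0 := T3.rfl' (Ψ := Ψ) a p q
  generalize Ψ a (ox p.castSucc) = A at *
  generalize Ψ a (ox p.succ) = B at *
  generalize Ψ a (ox q.succ) = C at *
  have hs0 := T0.s
  cases ε <;> cases δ
  · -- C < B < A
    have c1 : TL B A := c1
    have c2 : TL C B := c2
    have s1 := (H4 B A c1).1
    have s2 := (H4 C B c2).1
    obtain ⟨c3, s3⟩ := H6 C B A c2 c1
    have s4 := (H4 C A c3).1
    have T1 := T0.mul1 h hpq false
    have T2 := T1.mul2 h hpq false
    have T3 := T2.mul1 h hpq false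
    have T5 := T0.mul2 h hpq false
    have T4 := T5.mul1 h hpq false
    simp only [v1, v2, Bool.false_eq_true, if_false] at T1 T2 T3 T4 T5
    have t1 := T1.s
    have t2 := T2.s
    have t3 := T3.s
    have t4 := T4.s
    have t5 := T5.s
    refine (jst q false rfl (by omega) (by omega : Nh Ψ (a * gb p false * gb q false) < Nh Ψ a)).trans
      _ _ _ ?_
    refine (jst p false rfl (by omega)
      (by omega : Nh Ψ (a * gb p false * gb q false * gb p false) < Nh Ψ a)).trans _ _ _ ?_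
    refine .symm _ _ ?_
    refine (jst p false rfl (by omega) (by omega : Nh Ψ (a * gb q false * gb p false) < Nh Ψ a)).trans
      _ _ _ ?_
    refine jst q false ?_ (by omega) (by omega)
    simp only [gb, Bool.false_eq_true, if_false, mul_assoc]
    congr 1
    rw [← mul_inv_rev, ← mul_inv_rev, ← mul_inv_rev, ← mul_inv_rev, hb]
  · exact absurd ⟨c1, c2⟩ hX
  · have c1 : TL A B := c1
    have c2 : TL C B := c2
    have s1 := (H4 A B c1).1
    have s2 := (H4 C B c2).1
    rcases H7 A B C c1 c2 hAC with c3 | c3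
    · obtain ⟨-, s3⟩ := H6 A C B c3 c2
      have s4 := (H4 A C c3).1
      have T1 := T0.mul1 h hpq true
      have T2 := T1.mul2 h hpq true
      have T5 := T0.mul2 h hpq false
      have T4 := T5.mul1 h hpq true
      have T3 := T4.mul2 h hpq true
      simp only [v1, v2, Bool.false_eq_true, if_false, if_true] at T1 T2 T3 T4 T5
      have t1 := T1.s
      have t2 := T2.s
      have t3 := T3.s
      have t4 := T4.s
      have t5 := T5.s
      refine (jst q true rfl (by omega) (by omega : Nh Ψ (a * gb p true * gb q true) < Nh Ψ a)).trans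
        _ _ _ ?_
      refine .symm _ _ ?_
      refine (jst p true rfl (by omega) (by omega : Nh Ψ (a * gb q false * gb p true) < Nh Ψ a)).trans
        _ _ _ ?_
      refine (jst q true rfl (by omega)
        (by omega : Nh Ψ (a * gb q false * gb p true * gb q true) < Nh Ψ a)).trans _ _ _ ?_
      refine jst p true ?_ (by omega) (by omega)
      simp only [gb, Bool.false_eq_true, if_false, if_true, mul_assoc]
      congr 1
      rw [eq_inv_mul_iff_mul_eq, ← mul_assoc, ← mul_assoc, hb]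
    · obtain ⟨-, s3⟩ := H6 C A B c3 c1
      have s4 := (H4 C A c3).1
      have T1 := T0.mul1 h hpq true
      have T2 := T1.mul2 h hpq false
      have T3 := T2.mul1 h hpq false
      have T5 := T0.mul2 h hpq false
      have T4 := T5.mul1 h hpq false
      simp only [v1, v2, Bool.false_eq_true, if_false, if_true] at T1 T2 T3 T4 T5
      have t1 := T1.s
      have t2 := T2.s
      have t3 := T3.s
      have t4 := T4.s
      have t5 := T5.s
      refine (jst q false rfl (by omega) (by omega : Nh Ψ (a * gb p true * gb q false) < Nh Ψ a)).trans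
        _ _ _ ?_
      refine (jst p false rfl (by omega)
        (by omega : Nh Ψ (a * gb p true * gb q false * gb p false) < Nh Ψ a)).trans _ _ _ ?_
      refine .symm _ _ ?_
      refine (jst p false rfl (by omega) (by omega : Nh Ψ (a * gb q false * gb p false) < Nh Ψ a)).trans
        _ _ _ ?_
      refine jst q true ?_ (by omega) (by omega)
      simp only [gb, Bool.false_eq_true, if_false, if_true, mul_assoc]
      congr 1
      rw [← mul_inv_rev, mul_inv_eq_iff_eq_mul, mul_assoc, mul_assoc, eq_inv_mul_iff_mul_eq]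
      simp only [← mul_assoc]
      rw [mul_assoc, mul_assoc, eq_inv_mul_iff_mul_eq, ← mul_assoc, ← mul_assoc, hb]
  · have c1 : TL A B := c1
    have c2 : TL B C := c2
    have s1 := (H4 A B c1).1
    have s2 := (H4 B C c2).1
    obtain ⟨c3, s3⟩ := H6 A B C c1 c2
    have s4 := (H4 A C c3).1
    have T1 := T0.mul1 h hpq true
    have T2 := T1.mul2 h hpq true
    have T5 := T0.mul2 h hpq true
    have T4 := T5.mul1 h hpq true
    have T3 := T4.mul2 h hpq true
    simp only [v1, v2, if_true] at T1 T2 T3 T4 T5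
    have t1 := T1.s
    have t2 := T2.s
    have t3 := T3.s
    have t4 := T4.s
    have t5 := T5.s
    refine (jst q true rfl (by omega) (by omega : Nh Ψ (a * gb p true * gb q true) < Nh Ψ a)).trans
      _ _ _ ?_
    refine .symm _ _ ?_
    refine (jst p true rfl (by omega) (by omega : Nh Ψ (a * gb q true * gb p true) < Nh Ψ a)).trans
      _ _ _ ?_
    refine (jst q true rfl (by omega)
      (by omega : Nh Ψ (a * gb q true * gb p true * gb q true) < Nh Ψ a)).trans _ _ _ ?_
    refine .symm _ _ ?_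
    refine jst p true ?_ (by omega) (by omega)
    simp only [gb, if_true, mul_assoc]
    congr 1
    rw [← mul_assoc, ← mul_assoc, hb]

theorem peak (hH : HlnStmt) (hC : Cf4Stmt) (h : IsArt n Ψ) (a b c : Gp (CoxeterMatrix.A n))
    (hab : Rel a b) (hac : Rel a c) (h1 : Nh Ψ b < Nh Ψ a) (h2 : Nh Ψ c < Nh Ψ a) :
    Jn (Nh Ψ) Rel (Nh Ψ a) b c := by
  obtain ⟨p, ε, rfl⟩ := hab
  obtain ⟨q, δ, rfl⟩ := hac
  by_cases e1 : p.1 + 1 = q.1
  · exact peak_adj hH hC h a p q e1 ε δ h1 h2
  by_cases e2 : q.1 + 1 = p.1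
  · exact (peak_adj hH hC h a q p e2 δ ε h2 h1).symm _ _
  by_cases e3 : p = q
  · subst e3
    have c1 := (Nh_iff hH h a p ε).1 h1
    have c2 := (Nh_iff hH h a p δ).1 h2
    obtain ⟨-, -, -, H4, -⟩ := hH (n + 1)
    cases ε <;> cases δ
    · exact .refl _
    · exact absurd c1 (H4 _ _ c2).2
    · exact absurd c2 (H4 _ _ c1).2
    · exact .refl _
  · have n1 : p.castSucc ≠ q.castSucc := by
      intro h; exact e3 (Fin.castSucc_injective _ h)
    have n2 : p.castSucc ≠ q.succ := by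
      intro h; have := congrArg Fin.val h; simp at this; omega
    have n3 : p.succ ≠ q.castSucc := by
      intro h; have := congrArg Fin.val h; simp at this; omega
    have n4 : p.succ ≠ q.succ := by
      intro h; exact e3 (Fin.succ_injective _ h)
    have c1 := (Nh_iff hH h a p ε).1 h1
    have h3 : Nh Ψ (a * gb q δ * gb p ε) < Nh Ψ (a * gb q δ) := by
      apply Nh_lt hH h
      rw [act3 h a q δ _ n1 n2, act3 h a q δ _ n3 n4]
      exact c1
    have hc : a * gb q δ * gb p ε = a * gb p ε * gb q δ := by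
      rw [mul_assoc, ← far_gb e3 e1 e2, ← mul_assoc]
    refine (jst q δ rfl h1 (by rw [← hc]; omega)).trans _ _ _ ?_
    exact (jst p ε hc.symm h2 (by rw [← hc]; omega)).symm _ _

theorem conn (a : Gp (CoxeterMatrix.A n)) : Relation.EqvGen Rel 1 a := by
  refine ind_right _ (.refl _) ?_ a
  intro a q ε ih
  exact ih.trans _ _ _ (.rel _ _ ⟨q, ε, rfl⟩)

/-- MOR. -/
theorem mor (hH : HlnStmt) (hC : Cf4Stmt) : MorStmt := by
  intro n Ψ h a ha
  have hz : ∀ b : Gp (CoxeterMatrix.A n), Ψ b = 1 → Tm (Nh Ψ) Rel b := by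
    intro b hb c _ hlt
    have : Nh Ψ b = 0 := by
      unfold Nh
      apply Finset.sum_eq_zero
      intro j _
      rw [hb]
      have := (hH (n + 1)).2.1 (ox j) [] j ⟨List.isChain_singleton _, by simp [wp]⟩
      simpa using this
    omega
  exact (newman (rel_symm) (Nh_ne hH h) (peak hH hC h) (conn a) (hz 1 (map_one _)) (hz a ha)).symm

end act

end Unf.H4
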