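import Pool.Agent.Helper4_UNF.Mor

set_option autoImplicit false

/-!
# Squad UNF: ORD. The planar order is invariant under the Artin action

Words are compared through the differences of consecutive symbols.  The order is described by the
cyclic order of the first symbols of `m⁻¹`, `m⁻¹ g`, `m⁻¹ h`, which makes the invariance a local
computation.
-/

namespace Unf.H4

open Art

/-! ## Normal forms and first symbols -/

section nf

variable {k : ℕ}

/-- The normal form. -/
noncomputable def nf (hN : NfoStmt) (g : O k) : List (Fin k) := (hN k g).choose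

theorem nf_rw (hN : NfoStmt) (g : O k) : Rw (nf hN g) := (hN k g).choose_spec.1.1

theorem wp_nf (hN : NfoStmt) (g : O k) : wp (nf hN g) = g := (hN k g).choose_spec.1.2

theorem nf_eq (hN : NfoStmt) {g : O k} {l : List (Fin k)} (h : Rw l) (h' : wp l = g) :
    nf hN g = l := ((hN k g).choose_spec.2 l ⟨h, h'⟩).symm

/-- The first symbol of a word; `0` for the empty word. -/
def fl : List (Fin k) → ℕ
  | [] => 0
  | j :: _ => j.1 + 1

/-- The first symbol of an element. -/
noncomputable def fs (hN : NfoStmt) (g : O k) : ℕ := fl (nf hN g)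

theorem fs_wp (hN : NfoStmt) {l : List (Fin k)} (h : Rw l) : fs hN (wp l) = fl l := by
  unfold fs
  rw [nf_eq hN h rfl]

theorem rw_cons {j : Fin k} {l : List (Fin k)} : Rw (j :: l) ↔ fl l ≠ j.1 + 1 ∧ Rw l := by
  cases l with
  | nil => simp [Rw, fl]
  | cons i l =>
    simp only [Rw, fl, List.isChain_cons_cons]
    constructor
    · rintro ⟨h1, h2⟩
      refine ⟨fun h => h1 ?_, h2⟩
      apply Fin.ext; omega
    · rintro ⟨h1, h2⟩
      refine ⟨fun h => h1 ?_, h2⟩
      rw [h]

theorem wp_cons (j : Fin k) (l : List (Fin k)) : wp (j :: l) = ox j * wp l := by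
  simp [wp]

theorem wp_nil : wp ([] : List (Fin k)) = 1 := by simp [wp]

theorem fs_one (hN : NfoStmt) : fs hN (1 : O k) = 0 := by
  have := fs_wp hN (l := ([] : List (Fin k))) (by simp [Rw])
  rwa [wp_nil] at this

theorem fs_eq_zero (hN : NfoStmt) {g : O k} (h : fs hN g = 0) : g = 1 := by
  unfold fs at h
  have h2 := wp_nf hN g
  cases hg : nf hN g with
  | nil => rw [hg, wp_nil] at h2; exact h2.symm
  | cons j l => rw [hg] at h; simp [fl] at h

theorem fs_mul (hN : NfoStmt) (j : Fin k) (g : O k) :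
    fs hN (ox j * g) = j.1 + 1 ↔ fs hN g ≠ j.1 + 1 := by
  constructor
  · intro h h'
    unfold fs at h'
    have h1 := nf_rw hN g
    have h2 := wp_nf hN g
    cases hg : nf hN g with
    | nil => rw [hg] at h'; simp [fl] at h'
    | cons i l =>
      rw [hg] at h' h1 h2
      have hij : i = j := Fin.ext (by simpa [fl] using h')
      subst hij
      have h3 : ox i * g = wp l := by
        rw [← h2, wp_cons, ← mul_assoc, ox_sq, one_mul]
      rw [h3, fs_wp hN (rw_cons.1 h1).2] at h
      exact (rw_cons.1 h1).1 h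
  · intro h
    have h1 : Rw (j :: nf hN g) := rw_cons.2 ⟨h, nf_rw hN g⟩
    have h2 := fs_wp hN h1
    rw [wp_cons, wp_nf] at h2
    rw [h2]
    rfl

/-- The last symbol of a reduced word. -/
theorem fs_last (hN : NfoStmt) (p : List (Fin k)) : ∀ (j : Fin k) (x y : O k), Rw (j :: p) →
    fs hN x ≠ j.1 + 1 → fs hN y ≠ j.1 + 1 →
    fs hN ((wp (j :: p))⁻¹ * x) = fs hN ((wp (j :: p))⁻¹ * y) := by
  induction p with
  | nil =>
    intro j x y _ hx hy
    have hi : (wp [j])⁻¹ = ox j := by
      rw [wp_cons, wp_nil, mul_one]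
      exact inv_eq_of_mul_eq_one_right (ox_sq j)
    rw [hi, (fs_mul hN j x).2 hx, (fs_mul hN j y).2 hy]
  | cons i p ih =>
    intro j x y hr hx hy
    have hi : ∀ z, (wp (j :: i :: p))⁻¹ * z = (wp (i :: p))⁻¹ * (ox j * z) := by
      intro z
      rw [wp_cons j, mul_inv_rev, mul_assoc]
      congr 2
      exact inv_eq_of_mul_eq_one_right (ox_sq j)
    rw [hi, hi]
    have h1 := rw_cons.1 hr
    have h2 : j.1 + 1 ≠ i.1 + 1 := fun h => h1.1 (by simpa [fl] using h.symm)
    apply ih i _ _ h1.2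
    · rw [(fs_mul hN j x).2 hx]; exact h2
    · rw [(fs_mul hN j y).2 hy]; exact h2

/-! ## Keys -/

/-- The position of the symbol `z` after the symbol `m`. -/
def df (k m z : ℕ) : ℕ := (z + (k + 1) - m) % (k + 1)

/-- The key of a word after the symbol `m`. -/
def key (m : ℕ) : List (Fin k) → List ℕ
  | [] => [df k m 0]
  | j :: l => df k m (j.1 + 1) :: key (j.1 + 1) l

theorem fl_le (l : List (Fin k)) : fl l ≤ k := by
  cases l with
  | nil => simp [fl]
  | cons j l => simp only [fl]; omega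

theorem df_eq {m z : ℕ} (hm : m ≤ k) (hz : z ≤ k) :
    df k m z = if m ≤ z then z - m else z + (k + 1) - m := by
  unfold df
  split_ifs with h
  · rw [show z + (k + 1) - m = (z - m) + (k + 1) by omega, Nat.add_mod_right]
    exact Nat.mod_eq_of_lt (by omega)
  · exact Nat.mod_eq_of_lt (by omega)

theorem df_inj {m z z' : ℕ} (hm : m ≤ k) (hz : z ≤ k) (hz' : z' ≤ k) (h : df k m z = df k m z') :
    z = z' := by
  rw [df_eq hm hz, df_eq hm hz'] at h
  split_ifs at h <;> omega

/-- Cyclic order of three numbers. -/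
def cyc3 (x y z : ℕ) : Prop := (x < y ∧ y < z) ∨ (y < z ∧ z < x) ∨ (z < x ∧ x < y)

theorem df_lt {m x y : ℕ} (hm : m ≤ k) (hx : x ≤ k) (hy : y ≤ k) (h : x ≠ m) (h' : y ≠ m) :
    df k m x < df k m y ↔ cyc3 m x y := by
  rw [df_eq hm hx, df_eq hm hy]
  unfold cyc3
  split_ifs <;> omega

/-- The head of the key. -/
theorem key_head (m : ℕ) (l : List (Fin k)) : ∃ r, key m l = df k m (fl l) :: r := by
  cases l with
  | nil => exact ⟨[], rfl⟩
  | cons j l => exact ⟨key (j.1 + 1) l, rfl⟩

theorem key_inj (l : List (Fin k)) : ∀ (m : ℕ) (l' : List (Fin k)), m ≤ k →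
    key m l = key m l' → l = l' := by
  induction l with
  | nil =>
    intro m l' hm h
    cases l' with
    | nil => rfl
    | cons j l' =>
      obtain ⟨r, hr⟩ := key_head (j.1 + 1) l'
      simp [key, hr] at h
  | cons i l ih =>
    intro m l' hm h
    cases l' with
    | nil =>
      obtain ⟨r, hr⟩ := key_head (i.1 + 1) l
      simp [key, hr] at h
    | cons j l' =>
      simp only [key, List.cons.injEq] at h
      have := df_inj hm (by omega) (by omega) h.1
      have hij : i = j := Fin.ext (by omega)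
      subst hij
      rw [ih (i.1 + 1) l' (by omega) h.2]

/-- The order. -/
def lto (hN : NfoStmt) (g h : O k) : Prop := key 0 (nf hN g) < key 0 (nf hN h)

theorem key_cone (p : List (Fin k)) : ∀ (m : ℕ) (q q' l : List (Fin k)), m ≤ k →
    key m (p ++ q) < key m l → key m l < key m (p ++ q') → ∃ r, l = p ++ r := by
  induction p with
  | nil => intro m q q' l _ _ _; exact ⟨l, rfl⟩
  | cons j p ih =>
    intro m q q' l hm h1 h2
    simp only [List.cons_append, key] at h1 h2
    cases l with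
    | nil =>
      simp only [key, List.cons_lt_cons_iff] at h1 h2
      have : df k m (j.1 + 1) = df k m 0 := by
        rcases h1 with h1 | h1 <;> rcases h2 with h2 | h2 <;> omega
      have := df_inj hm (by omega) (by omega) this
      omega
    | cons i l =>
      simp only [key, List.cons_lt_cons_iff] at h1 h2
      have h3 : df k m (j.1 + 1) = df k m (i.1 + 1) := by
        rcases h1 with h1 | h1 <;> rcases h2 with h2 | h2 <;> omega
      have := df_inj hm (by omega) (by omega) h3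
      have hij : i = j := Fin.ext (by omega)
      subst hij
      obtain ⟨r, hr⟩ := ih (i.1 + 1) q q' l (by omega)
        (by rcases h1 with h1 | h1; exact absurd h1 (lt_irrefl _); exact h1.2)
        (by rcases h2 with h2 | h2; exact absurd h2 (lt_irrefl _); exact h2.2)
      exact ⟨r, by rw [hr]; rfl⟩

/-- From the order to the cyclic order. -/
theorem to_cyc (hN : NfoStmt) (u : List (Fin k)) : ∀ (v : List (Fin k)) (c : ℕ) (m : O k),
    fs hN m⁻¹ = c → Rw u → Rw v → fl u ≠ c → fl v ≠ c → key c u < key c v →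
    ∃ m' : O k, cyc3 (fs hN m'⁻¹) (fs hN (m'⁻¹ * (m * wp u))) (fs hN (m'⁻¹ * (m * wp v))) := by
  induction u with
  | nil =>
    intro v c m hc hu hv h1 h2 hlt
    have hck : c ≤ k := hc ▸ fl_le _
    by_cases he : fl v = 0
    · cases v with
      | nil => exact absurd hlt (lt_irrefl _)
      | cons j v => simp [fl] at he
    · refine ⟨m, ?_⟩
      rw [inv_mul_cancel_left, inv_mul_cancel_left, fs_wp hN hu, fs_wp hN hv, hc]
      rw [← df_lt hck (fl_le _) (fl_le _) h1 h2]
      obtain ⟨r, hr⟩ := key_head c v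
      rw [hr] at hlt
      simp only [key, List.cons_lt_cons_iff] at hlt
      rcases hlt with hlt | hlt
      · exact hlt
      · exact absurd (df_inj hck (by omega) (fl_le _) hlt.1).symm he
  | cons j u ih =>
    intro v c m hc hu hv h1 h2 hlt
    have hck : c ≤ k := hc ▸ fl_le _
    by_cases he : fl v = j.1 + 1
    · cases v with
      | nil => simp [fl] at he
      | cons i v =>
        have hij : i = j := Fin.ext (by simpa [fl] using he)
        subst hij
        simp only [key, List.cons_lt_cons_iff, lt_irrefl, false_or, true_and] at hlt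
        have hm : fs hN (m * ox i)⁻¹ = i.1 + 1 := by
          rw [mul_inv_rev, inv_eq_of_mul_eq_one_right (ox_sq i), fs_mul, hc]
          exact fun h => h1 h.symm
        obtain ⟨m', hm'⟩ := ih v (i.1 + 1) (m * ox i) hm (rw_cons.1 hu).2 (rw_cons.1 hv).2
          (rw_cons.1 hu).1 (rw_cons.1 hv).1 hlt
        refine ⟨m', ?_⟩
        rw [wp_cons, wp_cons, ← mul_assoc m, ← mul_assoc m]
        exact hm'
    · refine ⟨m, ?_⟩
      rw [inv_mul_cancel_left, inv_mul_cancel_left, fs_wp hN hu, fs_wp hN hv, hc]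
      rw [← df_lt hck (fl_le _) (fl_le _) h1 h2]
      obtain ⟨r, hr⟩ := key_head c v
      rw [hr] at hlt
      simp only [key, List.cons_lt_cons_iff] at hlt
      rcases hlt with hlt | hlt
      · exact hlt
      · exact absurd (df_inj hck (by omega) (fl_le _) hlt.1).symm he

theorem cyc3_ne {x y z : ℕ} (h : cyc3 x y z) : y ≠ x ∧ z ≠ x ∧ y ≠ z := by
  unfold cyc3 at h; omega

/-- From the cyclic order to the order. -/
theorem of_cyc (hN : NfoStmt) (p : List (Fin k)) : ∀ (u v : List (Fin k)) (c : ℕ) (m : O k),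
    fs hN m⁻¹ = c → Rw p → Rw u → Rw v → (p ≠ [] → fl p ≠ c) → fl u ≠ c → fl v ≠ c →
    cyc3 (fs hN (m * wp p)⁻¹) (fs hN ((wp p)⁻¹ * wp u)) (fs hN ((wp p)⁻¹ * wp v)) →
    key c u < key c v := by
  induction p with
  | nil =>
    intro u v c m hc hp hu hv h0 h1 h2 h
    have hck : c ≤ k := hc ▸ fl_le _
    rw [wp_nil, mul_one, inv_one, one_mul, one_mul, hc, fs_wp hN hu, fs_wp hN hv] at h
    rw [← df_lt hck (fl_le _) (fl_le _) h1 h2] at h
    obtain ⟨r, hr⟩ := key_head c u
    obtain ⟨r', hr'⟩ := key_head c v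
    rw [hr, hr', List.cons_lt_cons_iff]
    exact Or.inl h
  | cons j p ih =>
    intro u v c m hc hp hu hv h0 h1 h2 h
    have h0' := h0 (by simp)
    obtain ⟨n1, n2, n3⟩ := cyc3_ne h
    have hm : fs hN (m * wp (j :: p))⁻¹ = fs hN ((wp (j :: p))⁻¹ * m⁻¹) := by rw [mul_inv_rev]
    have key1 : ∀ w : List (Fin k), Rw w → fs hN ((wp (j :: p))⁻¹ * wp w) ≠
        fs hN (m * wp (j :: p))⁻¹ → ∃ w', w = j :: w' := by
      intro w hw hne
      by_contra hcon
      apply hne
      rw [hm]
      apply fs_last hN p j _ _ hp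
      · rw [fs_wp hN hw]
        intro h3
        cases w with
        | nil => simp [fl] at h3
        | cons i w =>
          have hij : i = j := Fin.ext (by simpa [fl] using h3)
          exact hcon ⟨w, by rw [hij]⟩
      · rw [hc]
        exact fun h3 => h0' h3.symm
    obtain ⟨u', rfl⟩ := key1 u hu n1
    obtain ⟨v', rfl⟩ := key1 v hv n2
    have hm2 : fs hN (m * ox j)⁻¹ = j.1 + 1 := by
      rw [mul_inv_rev, inv_eq_of_mul_eq_one_right (ox_sq j), fs_mul, hc]
      exact fun h => h0' h.symm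
    have hcan : ∀ w : List (Fin k), (wp (j :: p))⁻¹ * wp (j :: w) = (wp p)⁻¹ * wp w := by
      intro w
      rw [wp_cons, wp_cons, mul_inv_rev, mul_assoc, inv_mul_cancel_left]
    rw [hcan, hcan, wp_cons, ← mul_assoc] at h
    simp only [key, List.cons_lt_cons_iff, lt_irrefl, false_or, true_and]
    exact ih u' v' (j.1 + 1) (m * ox j) hm2 (rw_cons.1 hp).2 (rw_cons.1 hu).2 (rw_cons.1 hv).2
      (fun _ => (rw_cons.1 hp).1) (rw_cons.1 hu).1 (rw_cons.1 hv).1 h

theorem lto_iff (hN : NfoStmt) {g h : O k} (hg : g ≠ 1) (hh : h ≠ 1) :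
    lto hN g h ↔ ∃ m : O k, cyc3 (fs hN m) (fs hN (m * g)) (fs hN (m * h)) := by
  have h1 : fl (nf hN g) ≠ 0 := fun h => hg (fs_eq_zero hN h)
  have h2 : fl (nf hN h) ≠ 0 := fun h' => hh (fs_eq_zero hN h')
  constructor
  · intro hlt
    obtain ⟨m, hm⟩ := to_cyc hN (nf hN g) (nf hN h) 0 1 (by rw [inv_one]; exact fs_one hN)
      (nf_rw hN g) (nf_rw hN h) h1 h2 hlt
    refine ⟨m⁻¹, ?_⟩
    rwa [wp_nf, wp_nf, one_mul, one_mul] at hm
  · rintro ⟨m, hm⟩
    refine of_cyc hN (nf hN m⁻¹) (nf hN g) (nf hN h) 0 1 (by rw [inv_one]; exact fs_one hN)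
      (nf_rw hN _) (nf_rw hN g) (nf_rw hN h) ?_ h1 h2 ?_
    · intro hne h3
      have := fs_eq_zero hN h3
      have h4 := wp_nf hN m⁻¹
      cases h5 : nf hN m⁻¹ with
      | nil => exact hne h5
      | cons j l => rw [h5] at h3; simp [fl] at h3
    · rw [wp_nf, wp_nf, wp_nf, one_mul, inv_inv]
      exact hm

theorem key_nf_inj (hN : NfoStmt) {g h : O k} (he : key 0 (nf hN g) = key 0 (nf hN h)) : g = h := by
  have := key_inj _ 0 _ (Nat.zero_le _) he
  rw [← wp_nf hN g, ← wp_nf hN h, this]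

/-- How the first symbols change: `s` is the first symbol of `z`, `f` the one of `σ z` and `f'` the
one of `x_i σ z`. -/
def Q (i s f f' : ℕ) : Prop :=
  (s ≠ i + 1 ∧ s ≠ i + 2 ∧ f = s ∧ f' = i + 1) ∨ (s = i + 1 ∧ f = i + 1 ∧ f' = i + 2) ∨
    (s = i + 2 ∧ f = i + 2 ∧ f' = i + 1) ∨ (s = i + 2 ∧ f = i + 1 ∧ f' ≠ i + 1 ∧ f' ≠ i + 2)

theorem Q_cyc {i s1 f1 g1 s2 f2 g2 s3 f3 g3 : ℕ} (h1 : Q i s1 f1 g1) (h2 : Q i s2 f2 g2)
    (h3 : Q i s3 f3 g3) (h : cyc3 s1 s2 s3) : cyc3 f1 f2 f3 ∨ cyc3 g1 g2 g3 := by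
  unfold cyc3 at *
  rcases h1 with ⟨a1, a2, rfl, rfl⟩ | ⟨rfl, rfl, rfl⟩ | ⟨rfl, rfl, rfl⟩ | ⟨rfl, rfl, a3, a4⟩ <;>
  rcases h2 with ⟨b1, b2, rfl, rfl⟩ | ⟨rfl, rfl, rfl⟩ | ⟨rfl, rfl, rfl⟩ | ⟨rfl, rfl, b3, b4⟩ <;>
  rcases h3 with ⟨c1, c2, rfl, rfl⟩ | ⟨rfl, rfl, rfl⟩ | ⟨rfl, rfl, rfl⟩ | ⟨rfl, rfl, c3, c4⟩ <;>
  first
  | exact Or.inl h
  | (exfalso; omega)
  | (left; omega)
  | (right; omega)

end nf

section act

variable {n : ℕ} {Ψ : Gp (CoxeterMatrix.A n) →* MulAut (O (n + 1))}

theorem Q_act (hN : NfoStmt) (h : IsArt n Ψ) (i : Fin n) (l : List (Fin (n + 1))) : Rw l →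
    Q i.1 (fs hN (wp l)) (fs hN (Ψ (gen _ i) (wp l)))
      (fs hN (ox i.castSucc * Ψ (gen _ i) (wp l))) := by
  obtain ⟨h1, h2, h3⟩ := h i
  induction l with
  | nil =>
    intro _
    rw [wp_nil, map_one, fs_one, mul_one]
    have := (fs_mul hN i.castSucc (1 : O (n + 1))).2 (by rw [fs_one]; omega)
    rw [mul_one] at this
    rw [this]
    unfold Q
    simp
  | cons j l ih =>
    intro hr
    obtain ⟨hj, hr'⟩ := rw_cons.1 hr
    have ih := ih hr'
    have hs : fs hN (wp (j :: l)) = j.1 + 1 := fs_wp hN hr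
    have hz : fs hN (wp l) = fl l := fs_wp hN hr'
    have key : ∀ (q : Fin (n + 1)) (z : O (n + 1)), fs hN (ox q * z) = q.1 + 1 ↔ fs hN z ≠ q.1 + 1 :=
      fun q z => fs_mul hN q z
    have hf : ∀ z : O (n + 1), fs hN (ox i.castSucc * z) = i.1 + 1 ↔ fs hN z ≠ i.1 + 1 := by
      intro z
      have := key i.castSucc z
      simpa using this
    have hg : ∀ z : O (n + 1), fs hN (ox i.succ * z) = i.1 + 2 ↔ fs hN z ≠ i.1 + 2 := by
      intro z
      have := key i.succ z
      simpa using this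
    rw [hz] at ih
    rw [hs, wp_cons, map_mul]
    generalize Ψ (gen _ i) (wp l) = z at *
    by_cases e1 : j = i.castSucc
    · subst e1
      rw [h1]
      have e2 : ox i.castSucc * (ox i.castSucc * ox i.succ * ox i.castSucc * z) =
          ox i.succ * (ox i.castSucc * z) := by
        simp only [← mul_assoc]
        rw [ox_sq, one_mul]
      have e3 : ox i.castSucc * ox i.succ * ox i.castSucc * z =
          ox i.castSucc * (ox i.succ * (ox i.castSucc * z)) := by
        simp only [← mul_assoc]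
      have e4 : fs hN (ox i.castSucc * z) ≠ i.1 + 2 := by
        have hj' : fl l ≠ i.1 + 1 := by simpa using hj
        have := hf z
        unfold Q at ih
        rcases ih with ih | ih | ih | ih <;> omega
      have e5 := (hg _).2 e4
      rw [e2, e3, e5]
      have e6 := (hf (ox i.succ * (ox i.castSucc * z))).2 (by rw [e5]; omega)
      rw [e6]
      unfold Q
      simp
    · by_cases e2 : j = i.succ
      · subst e2
        rw [h2, ← mul_assoc, ox_sq, one_mul]
        have hj' : fl l ≠ i.1 + 2 := by simpa using hj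
        have := hf z
        unfold Q at ih
        have hs' : i.succ.1 + 1 = i.1 + 2 := rfl
        rw [hs']
        rcases ih with ih | ih | ih | ih
        · right; right; right
          exact ⟨rfl, by omega, by omega, by omega⟩
        · right; right; left
          exact ⟨rfl, by omega, by omega⟩
        · exact absurd ih.1 hj'
        · exact absurd ih.1 hj'
      · rw [h3 j e1 e2]
        have n1 : j.1 ≠ i.1 := fun h => e1 (Fin.ext h)
        have n2 : j.1 ≠ i.1 + 1 := fun h => e2 (Fin.ext (by simp; exact h))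
        have k1 : fs hN (ox j * z) = j.1 + 1 := (key j z).2 (by
          unfold Q at ih
          rcases ih with ih | ih | ih | ih <;> omega)
        have k2 := (hf (ox j * z)).2 (by omega)
        left
        exact ⟨by omega, by omega, k1, k2⟩

theorem mono_gen (hN : NfoStmt) (h : IsArt n Ψ) (i : Fin n) (x y : O (n + 1)) (hx : x ≠ 1)
    (hy : y ≠ 1) (hlt : lto hN x y) : lto hN (Ψ (gen _ i) x) (Ψ (gen _ i) y) := by
  obtain ⟨m, hm⟩ := (lto_iff hN hx hy).1 hlt
  have hx' : Ψ (gen _ i) x ≠ 1 := fun h => hx ((Ψ (gen _ i)).injective (by rw [h, map_one]))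
  have hy' : Ψ (gen _ i) y ≠ 1 := fun h => hy ((Ψ (gen _ i)).injective (by rw [h, map_one]))
  have hQ : ∀ z : O (n + 1), Q i.1 (fs hN z) (fs hN (Ψ (gen _ i) z))
      (fs hN (ox i.castSucc * Ψ (gen _ i) z)) := by
    intro z
    have := Q_act hN h i (nf hN z) (nf_rw hN z)
    rwa [wp_nf] at this
  rw [lto_iff hN hx' hy']
  rcases Q_cyc (hQ m) (hQ (m * x)) (hQ (m * y)) hm with hc | hc
  · refine ⟨Ψ (gen _ i) m, ?_⟩
    rwa [map_mul, map_mul] at hc
  · refine ⟨ox i.castSucc * Ψ (gen _ i) m, ?_⟩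
    rwa [map_mul, map_mul, ← mul_assoc, ← mul_assoc] at hc

theorem mono_all (hN : NfoStmt) (h : IsArt n Ψ) (a : Gp (CoxeterMatrix.A n)) :
    ∀ x y : O (n + 1), x ≠ 1 → y ≠ 1 → lto hN x y → lto hN (Ψ a x) (Ψ a y) := by
  refine ind_right (fun a => ∀ x y : O (n + 1), x ≠ 1 → y ≠ 1 → lto hN x y →
    lto hN (Ψ a x) (Ψ a y)) ?_ ?_ a
  · intro x y _ _ hlt
    simpa using hlt
  · intro a q ε ih x y hx hy hlt
    rw [map_mul, MulAut.mul_apply, MulAut.mul_apply]
    have hne : ∀ (b : Gp (CoxeterMatrix.A n)) (z : O (n + 1)), z ≠ 1 → Ψ b z ≠ 1 :=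
      fun b z hz h => hz ((Ψ b).injective (by rw [h, map_one]))
    refine ih _ _ (hne _ _ hx) (hne _ _ hy) ?_
    cases ε
    · show lto hN (Ψ (gen _ q)⁻¹ x) (Ψ (gen _ q)⁻¹ y)
      have hc : ∀ z, Ψ (gen _ q) (Ψ (gen _ q)⁻¹ z) = z := by
        intro z
        rw [map_inv]
        exact MulAut.apply_inv_self _ _ _
      rcases lt_trichotomy (key 0 (nf hN (Ψ (gen _ q)⁻¹ x))) (key 0 (nf hN (Ψ (gen _ q)⁻¹ y)))
        with h1 | h1 | h1
      · exact h1
      · have := (Ψ (gen _ q)⁻¹).injective (key_nf_inj hN h1)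
        subst this
        exact absurd hlt (lt_irrefl _)
      · have := mono_gen hN h q _ _ (hne _ _ hy) (hne _ _ hx) h1
        rw [hc, hc] at this
        exact absurd (lt_trans hlt this) (lt_irrefl _)
    · exact mono_gen hN h q x y hx hy hlt

/-- ORD. -/
theorem ord (hN : NfoStmt) : OrdStmt := by
  intro n
  refine ⟨lto hN, fun g => lt_irrefl _, fun g h k h1 h2 => lt_trans h1 h2, ?_, ?_,
    fun Ψ h a g g' h1 h2 hlt => mono_all hN h a g g' h1 h2 hlt⟩
  · rintro p g w h' _ ⟨q, hq, rfl⟩ ⟨q', hq', rfl⟩ h1 h2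
    unfold lto at h1 h2
    rw [nf_eq hN hq rfl] at h1
    rw [nf_eq hN hq' rfl] at h2
    obtain ⟨r, hr⟩ := key_cone p 0 q q' _ (Nat.zero_le _) h1 h2
    refine ⟨r, ?_, ?_⟩
    · rw [← hr]; exact nf_rw hN w
    · rw [← hr]; exact wp_nf hN w
  · intro i j k hij hjk
    have hne : j ≠ i := by rintro rfl; omega
    have r1 : Rw [j] := List.isChain_singleton _
    have r2 : Rw [j, i] := by
      simp only [Rw, List.isChain_cons_cons, List.isChain_singleton, and_true]
      exact hne
    have r3 : Rw [k] := List.isChain_singleton _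
    have n1 : nf hN (ox j) = [j] := nf_eq hN r1 (by rw [wp_cons, wp_nil, mul_one])
    have n2 : nf hN (ox j * ox i) = [j, i] :=
      nf_eq hN r2 (by rw [wp_cons, wp_cons, wp_nil, mul_one])
    have n3 : nf hN (ox k) = [k] := nf_eq hN r3 (by rw [wp_cons, wp_nil, mul_one])
    have hi := i.2
    have hk := k.2
    have d1 : df (n + 1) (j.1 + 1) 0 < df (n + 1) (j.1 + 1) (i.1 + 1) := by
      rw [df_eq (by omega) (by omega), df_eq (by omega) (by omega), if_neg (by omega),
        if_neg (by omega)]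
      omega
    have d2 : df (n + 1) 0 (j.1 + 1) < df (n + 1) 0 (k.1 + 1) := by
      rw [df_eq (by omega) (by omega), df_eq (by omega) (by omega), if_pos (by omega),
        if_pos (by omega)]
      omega
    unfold lto
    rw [n1, n2, n3]
    simp only [key, List.cons_lt_cons_iff]
    exact ⟨Or.inr ⟨trivial, Or.inl d1⟩, Or.inl d2⟩

end act

end Unf.H4
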